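import Pool.Agent.U367.NC.Cat

set_option autoImplicit false

namespace Pool.Agent.Results.MP_606be1_nt.ComeagreFailure

open Filter

/-- `α` and `β` are multiplicatively independent. -/
def Independent {𝕜 : Type*} [NormedField 𝕜] (α β : 𝕜) : Prop :=
  ∀ p q : ℤ, α ^ p * β ^ q = 1 → p = 0 ∧ q = 0

/-- The pairs of natural numbers `(n, m)` with `|α ^ n - β ^ m| ≤ x`. -/
def pairs {𝕜 : Type*} [NormedField 𝕜] (α β : 𝕜) (x : ℝ) : Set (ℕ × ℕ) :=
  {p | ‖α ^ p.1 - β ^ p.2‖ ≤ x}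

/-- **Theorem.** For every complex number `β` with `|β| > 1` there is a comeagre set of complex
numbers such that every `α` in it with `|α| > 1` is multiplicatively independent of `β`, while the
number of the pairs `(n, m)` with `|α ^ n - β ^ m| ≤ x` is infinite for every `x > 0`; moreover, for any
prescribed rate `φ > 0`, generically infinitely many pairs have `0 < |α ^ n - β ^ m| < φ (n + m)`. The
same holds on the real line for every real `b > 1`, for instance `b = e` or `b = π`. -/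
theorem result :
    (∀ β : ℂ, 1 < ‖β‖ → ∀ φ : ℕ → ℝ, (∀ n, 0 < φ n) →
      ∀ᶠ α in residual ℂ, 1 < ‖α‖ → Independent α β ∧ (∀ x > 0, (pairs α β x).Infinite) ∧
        {p : ℕ × ℕ | 0 < ‖α ^ p.1 - β ^ p.2‖ ∧ ‖α ^ p.1 - β ^ p.2‖ < φ (p.1 + p.2)}.Infinite) ∧
    (∀ b : ℝ, 1 < b → ∀ φ : ℕ → ℝ, (∀ n, 0 < φ n) →
      ∀ᶠ a in residual ℝ, 1 < a → Independent a b ∧ (∀ x > 0, (pairs a b x).Infinite) ∧
        {p : ℕ × ℕ | 0 < |a ^ p.1 - b ^ p.2| ∧ |a ^ p.1 - b ^ p.2| < φ (p.1 + p.2)}.Infinite) := by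
  have key : ∀ x : ℝ, 0 < x → ∃ N : ℕ, ∀ n : ℕ, N ≤ n → 1 / ((n : ℝ) + 1) ≤ x := by
    intro x hx
    obtain ⟨N, hN⟩ := exists_nat_gt (1 / x)
    refine ⟨N, fun n hn => ?_⟩
    have h1 : (N : ℝ) ≤ n := by exact_mod_cast hn
    rw [div_le_iff₀ (by positivity)]
    rw [div_lt_iff₀ hx] at hN
    nlinarith
  have gen : ∀ {f : ℕ × ℕ → ℝ}, {p : ℕ × ℕ | 0 < f p ∧ f p < 1 / (((p.1 + p.2 : ℕ) : ℝ) + 1)}.Infinite →
      ∀ x : ℝ, 0 < x → {p : ℕ × ℕ | f p ≤ x}.Infinite := by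
    intro f hf x hx hfin
    obtain ⟨N, hN⟩ := key x hx
    refine hf ((hfin.union ((Set.finite_Iio N).prod (Set.finite_Iio N))).subset ?_)
    intro p hp
    by_cases h : N ≤ p.1 + p.2
    · left; exact (hp.2.le.trans (hN _ h))
    · right
      simp only [Set.mem_prod, Set.mem_Iio]
      omega
  refine ⟨fun β hβ φ hφ => ?_, fun b hb φ hφ => ?_⟩
  · filter_upwards [Pool.Agent.U367.NC.category_complex β hβ φ hφ,
      Pool.Agent.U367.NC.category_complex β hβ (fun n => 1 / ((n : ℝ) + 1))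
        (fun n => by positivity)] with α h1 h2 hα
    exact ⟨(h1 hα).1, gen (h2 hα).2, (h1 hα).2⟩
  · filter_upwards [Pool.Agent.U367.NC.category_real b hb φ hφ,
      Pool.Agent.U367.NC.category_real b hb (fun n => 1 / ((n : ℝ) + 1))
        (fun n => by positivity)] with a h1 h2 ha
    exact ⟨(h1 ha).1, gen (h2 ha).2, (h1 ha).2⟩

end Pool.Agent.Results.MP_606be1_nt.ComeagreFailure
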