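import Pool.Agent.U714.NC.Tiny

/-!
# Near-coincidences: only tiny differences can spoil the asymptotic formula

Let `a, b > 1` be real numbers (`a = π`, `b = e` in the problem). The number of the pairs `(n, m)` with
`n ≤ T` and `δ < |a ^ n - b ^ m| ≤ x` is `(log x) ^ 2 / (log a log b)` up to an error
`O(log x + log (1 / δ) + h)`, for all `T` between `C log x` and the tower `2 ^ 2 ^ ... ^ 2` of
height `h`. So the asymptotic formula of the question holds, without any condition, if only the
differences greater than `exp(-o((log x) ^ 2))` and the exponents below a tower of height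
`o((log x) ^ 2)` are considered; and for such exponents it holds for all pairs if and only if the
number of the pairs with tiny differences is `o((log x) ^ 2)`.
-/

set_option autoImplicit false

namespace Pool.Agent.Results.MP_606be1_nt.OnlyTinyDifferences

open Real Filter Asymptotics

/-- the tower `2 ^ 2 ^ ... ^ 2` of height `h` -/
def tower : ℕ → ℕ
  | 0 => 1
  | h + 1 => 2 ^ tower h

/-- the pairs `(n, m)` with `n ≤ T` and `|a ^ n - b ^ m| ≤ x` -/
def pairsUpTo (a b x T : ℝ) : Set (ℕ × ℕ) := {p | (p.1 : ℝ) ≤ T ∧ |a ^ p.1 - b ^ p.2| ≤ x}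

/-- the pairs `(n, m)` with `n ≤ T` and `δ < |a ^ n - b ^ m| ≤ x` -/
def pairsBetween (a b δ x T : ℝ) : Set (ℕ × ℕ) :=
  {p | (p.1 : ℝ) ≤ T ∧ δ < |a ^ p.1 - b ^ p.2| ∧ |a ^ p.1 - b ^ p.2| ≤ x}

/-- the formula `f(x) ~ (log x) ^ 2 / (log a log b)` -/
def Formula (a b : ℝ) (f : ℝ → ℝ) : Prop :=
  f ~[atTop] (fun x : ℝ => log x ^ 2 / (log a * log b))

theorem tower_eq (h : ℕ) : tower h = Pool.Agent.TH709.NC.tow h := by
  induction h with
  | zero => rfl
  | succ h ih => rw [tower, Pool.Agent.TH709.NC.tow, ih]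

theorem formula_iff {a b : ℝ} (ha : 1 < a) (hb : 1 < b) (f : ℝ → ℝ) :
    Formula a b f ↔ (fun x : ℝ => f x - log x ^ 2 / (log a * log b)) =o[atTop]
      (fun x : ℝ => log x ^ 2) := by
  have hA : 0 < log a := log_pos ha
  have hB : 0 < log b := log_pos hb
  have hAB : (log a * log b)⁻¹ ≠ 0 := inv_ne_zero (by positivity)
  have e1 : (fun x : ℝ => log x ^ 2 / (log a * log b)) =
      (fun x : ℝ => (log a * log b)⁻¹ * log x ^ 2) := by
    ext x
    rw [div_eq_mul_inv, mul_comm]
  unfold Formula IsEquivalent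
  have e3 : f - (fun x : ℝ => log x ^ 2 / (log a * log b))
      = (fun x : ℝ => f x - log x ^ 2 / (log a * log b)) := rfl
  rw [e3]
  conv_lhs => rw [e1]
  rw [isLittleO_const_mul_right_iff hAB]

/-- **Theorem.** Let `a, b > 1` (for instance `a = π`, `b = e`). There is `C > 0` such that:
(1) for all `x ≥ 2`, `0 < δ ≤ 1` and all `T` between `C log x` and the tower of height `h`, the number
of the pairs `(n, m)` with `n ≤ T` and `δ < |a ^ n - b ^ m| ≤ x` is `(log x) ^ 2 / (log a log b)` up to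
an error `≤ C (log x + log (1 / δ) + h)`.
(2) If `log (1 / δ(x))` and `h(x)` are `o((log x) ^ 2)` and `T(x)` is between `C log x` and the tower of
height `h(x)`, then the number of the pairs with `n ≤ T(x)` and `δ(x) < |a ^ n - b ^ m| ≤ x` is
asymptotic to `(log x) ^ 2 / (log a log b)`; and the number of all pairs with `n ≤ T(x)` and
`|a ^ n - b ^ m| ≤ x` is asymptotic to it if and only if the number of the pairs with `n ≤ T(x)` and
`|a ^ n - b ^ m| ≤ δ(x)` is `o((log x) ^ 2)`. -/
theorem result (a b : ℝ) (ha : 1 < a) (hb : 1 < b) :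
    ∃ C : ℝ, 0 < C ∧
      (∀ (x δ T : ℝ) (h : ℕ), 2 ≤ x → 0 < δ → δ ≤ 1 → C * log x ≤ T → T ≤ tower h →
        (pairsBetween a b δ x T).Finite ∧
        |((pairsBetween a b δ x T).ncard : ℝ) - log x ^ 2 / (log a * log b)| ≤
          C * (log x + log (1 / δ) + h)) ∧
      (∀ (T δ : ℝ → ℝ) (h : ℝ → ℕ),
        (∀ᶠ x in atTop, C * log x ≤ T x ∧ T x ≤ tower (h x) ∧ 0 < δ x ∧ δ x ≤ 1) →
        (fun x : ℝ => log (1 / δ x)) =o[atTop] (fun x : ℝ => log x ^ 2) →
        (fun x : ℝ => (h x : ℝ)) =o[atTop] (fun x : ℝ => log x ^ 2) →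
        Formula a b (fun x => ((pairsBetween a b (δ x) x (T x)).ncard : ℝ)) ∧
        (Formula a b (fun x => ((pairsUpTo a b x (T x)).ncard : ℝ)) ↔
          (fun x : ℝ => ((pairsUpTo a b (δ x) (T x)).ncard : ℝ)) =o[atTop]
            (fun x : ℝ => log x ^ 2))) := by
  have hA : 0 < log a := log_pos ha
  obtain ⟨C, hC0, hCa, hC⟩ := Pool.Agent.U714.NC.BT_count ha hb
  have main : ∀ (x δ T : ℝ) (h : ℕ), 2 ≤ x → 0 < δ → δ ≤ 1 → C * log x ≤ T → T ≤ tower h →
        (pairsBetween a b δ x T).Finite ∧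
        |((pairsBetween a b δ x T).ncard : ℝ) - log x ^ 2 / (log a * log b)| ≤
          C * (log x + log (1 / δ) + h) := by
    intro x δ T h hx hδ hδ1 hT hTh
    rw [tower_eq] at hTh
    have hlx : 0 < log x := log_pos (by linarith)
    exact hC x δ T h hx hδ hδ1 ((mul_le_mul_of_nonneg_right hCa hlx.le).trans hT) hTh
  refine ⟨C, hC0, main, ?_⟩
  intro T δ h hev hδo hho
  have hB : (fun x : ℝ => ((pairsBetween a b (δ x) x (T x)).ncard : ℝ) -
      log x ^ 2 / (log a * log b)) =o[atTop] (fun x : ℝ => log x ^ 2) := by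
    have hsum : (fun x : ℝ => log x + log (1 / δ x) + (h x : ℝ)) =o[atTop]
        (fun x : ℝ => log x ^ 2) :=
      (Pool.Agent.H491R3.PE.log_littleO.add hδo).add hho
    refine IsBigO.trans_isLittleO (IsBigO.of_bound C ?_) hsum
    filter_upwards [hev, eventually_ge_atTop (2 : ℝ)] with x hx hx2
    have h1 := (main x (δ x) (T x) (h x) hx2 hx.2.2.1 hx.2.2.2 hx.1 hx.2.1).2
    have hd : 0 ≤ log (1 / δ x) := log_nonneg (by rw [le_div_iff₀ hx.2.2.1]; linarith [hx.2.2.2])
    have hlx : 0 < log x := log_pos (by linarith)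
    have hh : (0 : ℝ) ≤ h x := Nat.cast_nonneg _
    rw [Real.norm_eq_abs, Real.norm_eq_abs, abs_of_nonneg (a := log x + log (1 / δ x) + (h x : ℝ))
      (by positivity)]
    exact h1
  refine ⟨(formula_iff ha hb _).2 hB, ?_⟩
  rw [formula_iff ha hb]
  have heq : (fun x : ℝ => ((pairsUpTo a b x (T x)).ncard : ℝ) - log x ^ 2 / (log a * log b))
      =ᶠ[atTop] (fun x : ℝ => (((pairsBetween a b (δ x) x (T x)).ncard : ℝ) -
        log x ^ 2 / (log a * log b)) + ((pairsUpTo a b (δ x) (T x)).ncard : ℝ)) := by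
    filter_upwards [hev, eventually_ge_atTop (2 : ℝ)] with x hx hx2
    obtain ⟨h1, h2, h3, h4⟩ := hx
    have hlx : 0 < log x := log_pos (by linarith)
    have hfin : (pairsUpTo a b x (T x)).Finite :=
      (Pool.Agent.U714.NC.PT_split ha hb hx2
        ((mul_le_mul_of_nonneg_right hCa hlx.le).trans h1)).1
    have e : pairsUpTo a b x (T x) =
        pairsBetween a b (δ x) x (T x) ∪ pairsUpTo a b (δ x) (T x) := by
      ext p
      simp only [Set.mem_union, pairsUpTo, pairsBetween, Set.mem_ofPred_eq]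
      constructor
      · rintro ⟨h5, h6⟩
        rcases lt_or_ge (δ x) |a ^ p.1 - b ^ p.2| with h7 | h7
        · exact Or.inl ⟨h5, h7, h6⟩
        · exact Or.inr ⟨h5, h7⟩
      · rintro (⟨h5, h6, h7⟩ | ⟨h5, h6⟩)
        · exact ⟨h5, h7⟩
        · exact ⟨h5, by linarith⟩
    have hd : Disjoint (pairsBetween a b (δ x) x (T x)) (pairsUpTo a b (δ x) (T x)) := by
      rw [Set.disjoint_left]
      intro p hp hq
      exact absurd hp.2.1 (not_lt.2 hq.2)
    have hf1 : (pairsBetween a b (δ x) x (T x)).Finite :=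
      hfin.subset (by rw [e]; exact Set.subset_union_left)
    have hf2 : (pairsUpTo a b (δ x) (T x)).Finite :=
      hfin.subset (by rw [e]; exact Set.subset_union_right)
    rw [e, Set.ncard_union_eq hd hf1 hf2]
    push_cast
    ring
  rw [isLittleO_congr heq (EventuallyEq.refl _ _)]
  constructor
  · intro h5
    have := h5.sub hB
    simpa using this
  · intro h5
    exact hB.add h5

end Pool.Agent.Results.MP_606be1_nt.OnlyTinyDifferences
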