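import Pool.Agent.U367.NC.Excess

set_option autoImplicit false

namespace Pool.Agent.Results.MP_606be1_nt.PrescribedExcess

open Real

/-- The pairs of natural numbers `(n, m)` with `|a ^ n - b ^ m| ≤ x`. -/
def pairs (a b x : ℝ) : Set (ℕ × ℕ) := {p | |a ^ p.1 - b ^ p.2| ≤ x}

/-- **Theorem.** Let `b > 1` (for instance `b = e`) and let `G` be any nondecreasing function from the
natural numbers to the natural numbers. Every open interval in `(1, ∞)` (for instance, a small one
around `π`) contains a number `a`, multiplicatively independent of `b`, such that for every `x` only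
finitely many pairs `(n, m)` satisfy `|a ^ n - b ^ m| ≤ x`, and for all natural numbers `x ≥ 2` the
number of these pairs is `(log x) ^ 2 / (log a log b) + G x + O(log x)`. -/
theorem result (b : ℝ) (hb : 1 < b) (G : ℕ → ℕ) (hG : Monotone G) (u v : ℝ) (hu : 1 ≤ u)
    (huv : u < v) :
    ∃ a : ℝ, u < a ∧ a < v ∧ (∀ p q : ℤ, a ^ p * b ^ q = 1 → p = 0 ∧ q = 0) ∧
      (∀ x : ℝ, (pairs a b x).Finite) ∧
      ∃ C : ℝ, ∀ x : ℕ, 2 ≤ x →
        |((pairs a b x).ncard : ℝ) - log x ^ 2 / (log a * log b) - G x| ≤ C * log x :=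
  Pool.Agent.U367.NC.excess hb G hG hu huv

end Pool.Agent.Results.MP_606be1_nt.PrescribedExcess
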