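import Pool.Agent.U714.NC.PowX

/-!
# Near-coincidences with bounded exponents

Let `a, b > 1` be real (`a = π`, `b = e` in the problem) and `α = log a / log b`. For a function `T`
let `N_T(x)` be the number of the pairs `(n, m)` of natural numbers with `n ≤ T(x)` and
`|a ^ n - b ^ m| ≤ x`; the question is whether the count without the condition `n ≤ T(x)` is
asymptotic to `(log x) ^ 2 / (log a log b)`. It is determined here when `N_T` is, for all `T` between
`C log x` and a power of `x`: always if `T = o((log x) ^ 2)`; for `T = K (log x) ^ 2` if and only if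
`α` is irrational; for `T = (log x) ^ k`, `k > 2`, if and only if for every `ε > 0` only finitely many
`(q, p)` satisfy `|q α - p| < exp(-ε q ^ (k / (k - 2)))`; for `T = x ^ κ` if and only if for every
`ε > 0` only finitely many `(q, p)` satisfy `|q α - p| < exp(-ε q (log q) ^ 2)`.
-/

set_option autoImplicit false

namespace Pool.Agent.Results.MP_606be1_nt.TruncatedCounts

open Real Filter Asymptotics

/-- the pairs `(n, m)` with `n ≤ T` and `|a ^ n - b ^ m| ≤ x` -/
def pairsUpTo (a b x T : ℝ) : Set (ℕ × ℕ) := {p | (p.1 : ℝ) ≤ T ∧ |a ^ p.1 - b ^ p.2| ≤ x}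

/-- the asymptotic formula for the pairs with `n ≤ T(x)` -/
def Asymptotic (a b : ℝ) (T : ℝ → ℝ) : Prop :=
  (fun x : ℝ => ((pairsUpTo a b x (T x)).ncard : ℝ)) ~[atTop]
    (fun x : ℝ => log x ^ 2 / (log a * log b))

/-- the pairs `(q, p)`, `q ≥ 1`, with `|q α - p| < exp(-φ(q))` -/
def Approximations (α : ℝ) (φ : ℝ → ℝ) : Set (ℕ × ℕ) :=
  {l | 1 ≤ l.1 ∧ |(l.1 : ℝ) * α - l.2| < exp (-φ l.1)}

/-- the pairs `(q, p)`, `q ≥ 1`, for which some `x ≥ 2` has `T(x) ≥ δ q (log x) ^ 2` and
`|q α - p| < exp(-δ q (log x) ^ 2)` -/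
def Exceptional (T : ℝ → ℝ) (α δ : ℝ) : Set (ℕ × ℕ) :=
  {l | 1 ≤ l.1 ∧ ∃ x : ℝ, 2 ≤ x ∧ δ * l.1 * log x ^ 2 ≤ T x ∧
    |(l.1 : ℝ) * α - l.2| < exp (-(δ * l.1 * log x ^ 2))}

/-- **Theorem.** Let `a, b > 1`, `α = log a / log b`. There is `C > 0` such that:
(1) the number of the pairs `(n, m)` with `n ≤ T` and `|a ^ n - b ^ m| ≤ x` is
`(log x) ^ 2 / (log a log b)` up to an error `≤ C T`, for all `x ≥ 2` and `T ≥ C log x`.
(2) For every function `T` with `C log x ≤ T(x)` (for large `x`) and `T(x) ≤ x ^ κ`, the asymptotic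
formula for the pairs with `n ≤ T(x)` holds if and only if `α` is irrational or `T = o((log x) ^ 2)`,
and for every `δ > 0` only finitely many `(q, p)` are exceptional.
(3) For `T = K (log x) ^ 2` it holds if and only if `α` is irrational.
(4) For `T = (log x) ^ k`, `k > 2`, it holds if and only if for every `ε > 0` only finitely many
`(q, p)` satisfy `|q α - p| < exp(-ε q ^ (k / (k - 2)))`.
(5) For `T = x ^ κ` (any `κ > 0`) it holds if and only if for every `ε > 0` only finitely many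
`(q, p)` satisfy `|q α - p| < exp(-ε q (log q) ^ 2)`. -/
theorem result (a b : ℝ) (ha : 1 < a) (hb : 1 < b) :
    ∃ C : ℝ, 0 < C ∧
      (∀ x T : ℝ, 2 ≤ x → C * log x ≤ T → (pairsUpTo a b x T).Finite ∧
        |((pairsUpTo a b x T).ncard : ℝ) - log x ^ 2 / (log a * log b)| ≤ C * T) ∧
      (∀ (κ : ℝ) (T : ℝ → ℝ), 0 < κ → (∀ᶠ x in atTop, C * log x ≤ T x) →
        (∀ x : ℝ, 2 ≤ x → T x ≤ x ^ κ) →
        (Asymptotic a b T ↔
          (Irrational (log a / log b) ∨ T =o[atTop] (fun x : ℝ => log x ^ 2)) ∧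
            ∀ δ : ℝ, 0 < δ → (Exceptional T (log a / log b) δ).Finite)) ∧
      (∀ K : ℝ, 0 < K →
        (Asymptotic a b (fun x => K * log x ^ 2) ↔ Irrational (log a / log b))) ∧
      (∀ k : ℝ, 2 < k → (Asymptotic a b (fun x => log x ^ k) ↔
        ∀ ε : ℝ, 0 < ε →
          (Approximations (log a / log b) (fun q => ε * q ^ (k / (k - 2)))).Finite)) ∧
      (∀ κ : ℝ, 0 < κ → (Asymptotic a b (fun x => x ^ κ) ↔
        ∀ ε : ℝ, 0 < ε →
          (Approximations (log a / log b) (fun q => ε * q * log q ^ 2)).Finite)) := by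
  have hA : 0 < log a := log_pos ha
  obtain ⟨C, hC0, hC⟩ := Pool.Agent.U714.NC.unconditional ha hb
  have hmax : C ≤ max C (2 / log a) := le_max_left _ _
  have hmax2 : 2 / log a ≤ max C (2 / log a) := le_max_right _ _
  -- the criterion with the weaker lower bound
  have crit : ∀ (κ : ℝ) (T : ℝ → ℝ), 0 < κ → (∀ᶠ x in atTop, 2 / log a * log x ≤ T x) →
      (∀ x : ℝ, 2 ≤ x → T x ≤ x ^ κ) →
      (Asymptotic a b T ↔
        (Irrational (log a / log b) ∨ T =o[atTop] (fun x : ℝ => log x ^ 2)) ∧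
          ∀ δ : ℝ, 0 < δ → (Exceptional T (log a / log b) δ).Finite) := by
    intro κ T hκ hT1 hT2
    have h1 : Asymptotic a b T ↔ _ := Pool.Agent.U714.NC.equiv_iff ha hb hT1
    rw [h1]
    constructor
    · intro h
      exact ⟨Pool.Agent.U714.NC.gen_nec1 ha hb hT1 h,
        Pool.Agent.U714.NC.gen_nec2 ha hb hκ hT1 hT2 h⟩
    · rintro ⟨h2, h3⟩
      exact Pool.Agent.U714.NC.gen_suff ha hb hκ hT1 hT2 h2 h3
  have hsq : ∀ K : ℝ, 0 < K → ∀ᶠ x : ℝ in atTop, 2 / log a * log x ≤ K * log x ^ 2 :=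
    fun K hK => Pool.Agent.U714.NC.log_le_eps hK
  refine ⟨max C (2 / log a), lt_max_of_lt_left hC0, ?_, ?_, ?_, ?_, ?_⟩
  · intro x T hx hT
    have hlx : 0 < log x := log_pos (by linarith)
    have h1 : C * log x ≤ T := (mul_le_mul_of_nonneg_right hmax hlx.le).trans hT
    have hT0 : 0 ≤ T := le_trans (by positivity) h1
    obtain ⟨h2, h3⟩ := hC x T hx h1
    exact ⟨h2, h3.trans (mul_le_mul_of_nonneg_right hmax hT0)⟩
  · intro κ T hκ hT1 hT2
    refine crit κ T hκ ?_ hT2
    filter_upwards [hT1, eventually_ge_atTop (2 : ℝ)] with x hx hx2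
    exact (mul_le_mul_of_nonneg_right hmax2 (log_nonneg (by linarith))).trans hx
  · intro K hK
    have h1 : Asymptotic a b (fun x => K * log x ^ 2) ↔ _ :=
      Pool.Agent.U714.NC.equiv_iff ha hb (hsq K hK)
    rw [h1]
    exact ⟨Pool.Agent.U714.NC.irrational_of_small ha hb hK,
      fun h => Pool.Agent.U714.NC.small_of_irrational ha hb h hK⟩
  · intro k hk
    have hT : ∀ᶠ x : ℝ in atTop, 2 / log a * log x ≤ log x ^ k := by
      filter_upwards [hsq 1 one_pos, Real.tendsto_log_atTop.eventually_ge_atTop 1] with x hx hx1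
      refine hx.trans ?_
      rw [one_mul, ← Real.rpow_two]
      exact Real.rpow_le_rpow_of_exponent_le hx1 hk.le
    have h1 : Asymptotic a b (fun x => log x ^ k) ↔ _ :=
      Pool.Agent.U714.NC.equiv_iff ha hb hT
    rw [h1]
    exact ⟨Pool.Agent.U714.NC.good_of_small ha hb hk,
      fun h => Pool.Agent.U714.NC.small_of_good ha hb hk h⟩
  · intro κ hκ
    have hT : ∀ᶠ x : ℝ in atTop, 2 / log a * log x ≤ x ^ κ := by
      have h1 := (isLittleO_log_rpow_atTop hκ).bound (c := log a / 2) (by positivity)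
      filter_upwards [h1, eventually_ge_atTop (2 : ℝ)] with x hx hx2
      have hlx : 0 < log x := log_pos (by linarith)
      rw [Real.norm_eq_abs, Real.norm_eq_abs, abs_of_nonneg hlx.le,
        abs_of_nonneg (by positivity)] at hx
      rw [div_mul_eq_mul_div, div_le_iff₀ hA]
      linarith
    rw [crit κ (fun x => x ^ κ) hκ hT (fun x _ => le_refl _)]
    have hE : (∀ δ : ℝ, 0 < δ → (Exceptional (fun x => x ^ κ) (log a / log b) δ).Finite) ↔
        ∀ ε : ℝ, 0 < ε →
          (Approximations (log a / log b) (fun q => ε * q * log q ^ 2)).Finite :=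
      Pool.Agent.U714.NC.bad_rpow_iff hκ
    constructor
    · rintro ⟨-, h⟩
      exact hE.1 h
    · intro h
      exact ⟨Or.inl (Pool.Agent.U714.NC.irr_of_finite ha hb
        (φ := fun q => 1 * q * log q ^ 2) (h 1 one_pos)), hE.2 h⟩

end Pool.Agent.Results.MP_606be1_nt.TruncatedCounts
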